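import Pool.Agent.Helper12.Circ.Main

/-!
# Circular choosability of planar graphs

The least upper bound of the circular choosabilities of the finite planar graphs is `6`.

Upper bound (`Circ/Upper.lean`): for a graph with conductances `r` on the edges and on the edges to
an apex, and arbitrary sets `A_e` of the circle of measure less than `r_e R_e` (`R_e` the effective
resistance), there is a point of the torus all of whose edge differences avoid the sets `A_e`: take
a minimiser of a sum of energies whose second derivatives are `1 - 1_{A_e} / |A_e|` and look at the
second variation in the direction of the potential of the edge `e`. Conductances with `r_e R_e`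
above prescribed numbers exist when the graph is sparse, by minimising a log-determinant.
-/

namespace Pool.Agent.Results.MP_4c807e_co.TauSix

/-- The least upper bound of the circular choosabilities of all finite planar graphs is `6`. -/
theorem result : IsLUB {x : ℝ | ∃ (n : ℕ) (G : SimpleGraph (Fin n)),
    Pool.Agent.Circ.Planar G ∧ x = Pool.Agent.Circ.cch G} 6 :=
  Pool.Agent.Circ.main

end Pool.Agent.Results.MP_4c807e_co.TauSix
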